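import Mathlib

/-!
Player 2 wins the Tribonacci Zeckendorf game on `n` for every `n ≥ 7`.
-/

namespace Pool.Agent.Results.MP_7f8e47_co.PlayerTwo

/-- The moves. A position is a finite multiset of terms `S_i` (`i ≥ 1`), and is represented by the
multiset of the indices `i`. -/
inductive Move : Multiset ℕ → Multiset ℕ → Prop
  /-- `S_{i-2}, S_{i-1}, S_i → S_{i+1}` for `i ≥ 3` -/
  | rule1 (r : Multiset ℕ) (i : ℕ) (hi : 3 ≤ i) : Move (r + {i - 2, i - 1, i}) (r + {i + 1})
  /-- `S_1, S_1, S_2 → S_3` -/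
  | rule2 (r : Multiset ℕ) : Move (r + {1, 1, 2}) (r + {3})
  /-- `S_1, S_1 → S_2` -/
  | rule3 (r : Multiset ℕ) : Move (r + {1, 1}) (r + {2})
  /-- `S_2, S_2 → S_3` -/
  | rule4 (r : Multiset ℕ) : Move (r + {2, 2}) (r + {3})
  /-- `S_3, S_3 → S_4, S_1` -/
  | rule5 (r : Multiset ℕ) : Move (r + {3, 3}) (r + {4, 1})
  /-- `S_i, S_i → S_{i+1}, S_{i-3}` for `i ≥ 4` -/
  | rule6 (r : Multiset ℕ) (i : ℕ) (hi : 4 ≤ i) : Move (r + {i, i}) (r + {i + 1, i - 3})

/-- Every play is finite: the number of terms plus the sum of the indices decreases. -/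
theorem Move.lt {p q : Multiset ℕ} (h : Move p q) : q.card + q.sum < p.card + p.sum := by
  cases h <;> simp <;> omega

/-- The player to move at `p` has a winning strategy (a player who cannot move loses). -/
def MoverWins (p : Multiset ℕ) : Prop := ∃ q, ∃ _ : Move p q, ¬ MoverWins q
termination_by p.card + p.sum
decreasing_by
  rename_i h
  exact h.lt

/-- Player 2 has a winning strategy in the Tribonacci game on `n`: the player to move at the
starting position, `n` copies of `S_1`, has none. -/
def PlayerTwoWins (n : ℕ) : Prop := ¬ MoverWins (Multiset.replicate n 1)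

theorem moverWins_iff (p : Multiset ℕ) : MoverWins p ↔ ∃ q, Move p q ∧ ¬ MoverWins q := by
  rw [MoverWins]; simp only [exists_prop]

/-- `a` copies of `S_1`. -/
abbrev R (a : ℕ) : Multiset ℕ := Multiset.replicate a 1

theorem R_two (a : ℕ) : R (a + 2) = R a + {1, 1} := by
  rw [R, Multiset.replicate_add]
  rfl

theorem R_one (a : ℕ) : R (a + 1) = R a + {1} := by
  rw [R, Multiset.replicate_add]
  rfl

/-- A move from `S_1`s and other terms: if the other terms allow nothing, only `S_1, S_1 → S_2`
remains. -/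
theorem inv_gen {a : ℕ} {m q : Multiset ℕ} (h : Move (R a + m) q)
    (h1 : ∀ x ∈ m, x = 3 ∨ x = 4) (h4 : m.count 4 ≤ 1) :
    (∃ b, a = b + 2 ∧ q = R b + {2} + m) ∨
      (2 ≤ m.count 3 ∧ ∃ r, R a + m = r + {3, 3} ∧ q = r + {4, 1}) := by
  have hmem : ∀ x ∈ R a + m, x = 1 ∨ x = 3 ∨ x = 4 := by
    intro x hx
    rcases Multiset.mem_add.1 hx with hx | hx
    · left; exact Multiset.eq_of_mem_replicate hx
    · right; exact h1 x hx
  generalize hp : R a + m = p at h hmem
  cases h with
  | rule1 r i hi =>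
    have h2 := hmem i (by simp)
    have h3 := hmem (i - 1) (by simp)
    have h4 := hmem (i - 2) (by simp)
    omega
  | rule2 r => have := hmem 2 (by simp); omega
  | rule3 r =>
    left
    have hc : (R a + m).count 1 = (r + {1, 1}).count 1 := by rw [hp]
    have hm1 : m.count 1 = 0 := Multiset.count_eq_zero.2 (fun h => by have := h1 1 h; omega)
    simp [hm1] at hc
    obtain ⟨b, rfl⟩ : ∃ b, a = b + 2 := ⟨a - 2, by omega⟩
    refine ⟨b, rfl, ?_⟩
    rw [R_two] at hp
    have : R b + m + {1, 1} = r + {1, 1} := by rw [← hp]; abel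
    have hr : R b + m = r := add_right_cancel this
    rw [← hr]; abel
  | rule4 r => have := hmem 2 (by simp); omega
  | rule5 r =>
    right
    refine ⟨?_, r, rfl, rfl⟩
    have hc : (R a + m).count 3 = (r + {3, 3}).count 3 := by rw [hp]
    simp [R, Multiset.count_replicate] at hc
    omega
  | rule6 r i hi =>
    exfalso
    have h2 := hmem i (by simp)
    have hi4 : i = 4 := by omega
    subst hi4
    have hc : (R a + m).count 4 = (r + {4, 4}).count 4 := by rw [hp]
    simp [R, Multiset.count_replicate] at hc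
    omega

/-- Player 2 wins the Tribonacci Zeckendorf game on `n` for all `n ≥ 7`. -/
theorem result (n : ℕ) (hn : 7 ≤ n) : PlayerTwoWins n := by
  intro h0
  obtain ⟨k, rfl⟩ : ∃ k, n = k + 7 := ⟨n - 7, by omega⟩
  -- the first move is forced
  have l1 : ¬ MoverWins (R (k + 5) + {2}) := by
    obtain ⟨q, hq, hw⟩ := (moverWins_iff _).1 h0
    have hq' : Move (R (k + 7) + 0) q := by simpa using hq
    rcases inv_gen hq' (by simp) (by simp) with ⟨b, hb, rfl⟩ | ⟨h, -⟩
    · obtain rfl : b = k + 5 := by omega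
      simpa using hw
    · simp at h
  -- all answers to a losing position are winning
  have opt : ∀ {p q : Multiset ℕ}, ¬ MoverWins p → Move p q → MoverWins q := by
    intro p q hp hm
    by_contra hq
    exact hp ((moverWins_iff _).2 ⟨q, hm, hq⟩)
  have w2 : MoverWins (R (k + 3) + {3}) := by
    refine opt l1 ?_
    rw [R_two, add_assoc]
    exact Move.rule2 _
  have l3 : ¬ MoverWins (R (k + 1) + {2} + {3}) := by
    obtain ⟨q, hq, hw⟩ := (moverWins_iff _).1 w2
    rcases inv_gen hq (by simp) (by simp) with ⟨b, hb, rfl⟩ | ⟨h, -⟩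
    · obtain rfl : b = k + 1 := by omega
      exact hw
    · simp at h
  have w4 : MoverWins (R k + {4}) := by
    refine opt l3 ?_
    have : R (k + 1) + {2} + {3} = R k + {3 - 2, 3 - 1, 3} := by
      rw [R_one]; simp [Multiset.insert_eq_cons, ← Multiset.singleton_add]; abel
    rw [this]
    exact Move.rule1 _ 3 le_rfl
  obtain ⟨q, hq, hw⟩ := (moverWins_iff _).1 w4
  rcases inv_gen hq (by simp) (by simp) with ⟨j, hj, rfl⟩ | ⟨h, -⟩
  swap
  · simp at h
  subst hj
  -- now `n = j + 9`
  have w5 : MoverWins (R (j + 1) + ({3} + {3})) := by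
    refine opt l3 ?_
    have h1 : R (j + 2 + 1) + {2} + {3} = (R (j + 1) + {3}) + {1, 1, 2} := by
      rw [show j + 2 + 1 = (j + 1) + 2 by ring, R_two]
      simp [Multiset.insert_eq_cons, ← Multiset.singleton_add]; abel
    rw [h1, ← add_assoc]
    exact Move.rule2 _
  obtain ⟨q, hq5, hw5⟩ := (moverWins_iff _).1 w5
  rcases inv_gen hq5 (by simp) (by simp) with ⟨i, hi, rfl⟩ | ⟨-, r, hr, rfl⟩
  · -- answer `S_1, S_1 → S_2`
    apply hw5
    refine (moverWins_iff _).2 ⟨R j + {2} + {4}, ?_, hw⟩
    have h1 : R i + {2} + ({3} + {3}) = (R i + {2}) + {3, 3} := by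
      simp [Multiset.insert_eq_cons, ← Multiset.singleton_add]
    have h2 : R j + {2} + {4} = (R i + {2}) + {4, 1} := by
      obtain rfl : j = i + 1 := by omega
      rw [R_one]; simp [Multiset.insert_eq_cons, ← Multiset.singleton_add]; abel
    rw [h1, h2]
    exact Move.rule5 _
  · -- answer `S_3, S_3 → S_4, S_1`
    apply hw5
    have h1 : r = R (j + 1) := by
      have : R (j + 1) + {3, 3} = r + {3, 3} := by
        rw [← hr]; simp [Multiset.insert_eq_cons, ← Multiset.singleton_add]
      exact (add_right_cancel this).symm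
    rw [h1]
    have h2 : R (j + 1) + {4, 1} = R (j + 2) + {4} := by
      rw [R_one (j + 1)]; simp [Multiset.insert_eq_cons, ← Multiset.singleton_add]; abel
    rw [h2]
    exact w4

end Pool.Agent.Results.MP_7f8e47_co.PlayerTwo
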